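import Pool.Agent.Q273.NC.Trn
import Pool.Agent.Q273.AD.Fin
import Pool.Agent.Q273.AD.Up

/-!
# From counts to laws near almost every point of `ℝ^n × ∏ ℤ_p^n`
-/

set_option autoImplicit false

namespace Q273.SN

open MeasureTheory NumberField IsDedekindDomain
open NumberField.mixedEmbedding NumberField.InfinitePlace
open Rat.HeightOneSpectrum
open Q273.AD (FinAd prA fae' up1A pw pv)
open Q273.NC (ZHatN mpN trn)

variable {N : ℕ}

/-- the proximity function of the target -/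
noncomputable def mZ (V : Finset Nat.Primes) (u : (Fin N → ℝ) × ZHatN N) (y : Fin N → ℚ) : ℝ :=
  Real.log (max 1 (⨆ j : Fin N, |u.1 j - (y j : ℝ)|)⁻¹) + ∑ p ∈ V, mpN u.2 p y

open scoped Classical in
theorem mZ_eq (V : Finset Nat.Primes) (u : (Fin N → ℝ) × ZHatN N)
    (p : (Fin N → mixedSpace ℚ) × FinAd ℚ N) (y : Fin N → ℚ)
    (g1 : ∀ (w : InfinitePlace ℚ) (y : Fin N → ℚ), (w.mult : ℝ) * pw p.1 w y =
        Real.log (max 1 (⨆ j : Fin N, |u.1 j - (y j : ℝ)|)⁻¹))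
    (g2 : ∀ (v : HeightOneSpectrum (𝓞 ℚ)) (y : Fin N → ℚ),
        pv v (p.2 v) y = mpN u.2 (primesEquiv v) y) :
    prA (V.map primesEquiv.symm.toEmbedding) p y = mZ V u y := by
  have e1 : ∑ w : InfinitePlace ℚ, (w.mult : ℝ) * pw p.1 w y =
      Real.log (max 1 (⨆ j : Fin N, |u.1 j - (y j : ℝ)|)⁻¹) := by
    rw [Finset.sum_congr rfl fun w _ => g1 w y, Finset.sum_const, Finset.card_univ,
      Fintype.card_eq_one_iff_nonempty_unique.2 ⟨inferInstance⟩, one_smul]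
  unfold mZ prA
  rw [Q273.AD.prox_eq, e1, Finset.sum_map]
  congr 1
  refine Finset.sum_congr rfl fun r _ => ?_
  show pv (primesEquiv.symm r) (p.2 (primesEquiv.symm r)) y = _
  rw [g2 (primesEquiv.symm r) y, Equiv.apply_symm_apply]

open scoped Classical in
/-- **from a count to a law** -/
theorem gen (hN : 1 ≤ N) [MeasurableSpace (ZHatN N)] [BorelSpace (ZHatN N)]
    (μ : Measure (ZHatN N)) [IsFiniteMeasure μ] [μ.IsAddLeftInvariant]
    {T : Type} [Countable T] (y : T → Fin N → ℚ) (H : T → ℝ) (S : Set T)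
    (hH : ∀ x ∈ S, 1 ≤ H x) {s : ℝ} (hs : 0 ≤ s)
    (hS : ∀ δ : ℝ, 0 < δ → ∃ C : ℝ, ∀ X : ℝ, 1 ≤ X → {x | x ∈ S ∧ H x ≤ X}.Finite ∧
      ({x | x ∈ S ∧ H x ≤ X}.ncard : ℝ) ≤ C * X ^ (s + δ)) :
    ∀ᵐ u : (Fin N → ℝ) × ZHatN N ∂(volume.prod μ),
      ∀ V : Finset Nat.Primes, ∀ ε : ℝ, 0 < ε → ∃ C : ℝ, ∀ x ∈ S,
      (N : ℝ) * mZ V u (y x) ≤ (s + ε) * Real.log (H x) + C := by
  have h := trn N μ (fun p => ∀ V : Finset (HeightOneSpectrum (𝓞 ℚ)), ∀ ε : ℝ, 0 < ε →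
      ∃ C : ℝ, ∀ x ∈ S, (N : ℝ) * prA V p (y x) ≤ (s + ε) * Real.log (H x) + C)
      (fun ν _ _ => up1A fae' hN ν y H S hH hs hS)
  filter_upwards [h] with u hu
  obtain ⟨p, hp, g1, g2⟩ := hu
  intro V ε hε
  obtain ⟨C, hC⟩ := hp (V.map primesEquiv.symm.toEmbedding) ε hε
  refine ⟨C, fun x hx => ?_⟩
  have h3 := hC x hx
  rwa [mZ_eq V u p (y x) g1 g2] at h3

end Q273.SN
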