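import Pool.Agent.Q273.SN.Pre

/-!
# Pairwise coprime tuples with sum zero and large radical: the count
-/

set_option autoImplicit false

namespace Q273.SN

open Finset
open Pool.Agent.H813R3.Voj (rd rd_pos rho sum_inv_rho)
open Pool.Agent.TH867.SQ (lr lr_nonneg)

theorem harm_le (N : ℕ) : ∑ t ∈ Finset.range N, (1 : ℝ) / ((t : ℝ) + 1) ≤ 1 + Real.log N := by
  have h := harmonic_le_one_add_log N
  unfold harmonic at h
  push_cast at h
  simpa only [one_div] using h

theorem icc_le (N : ℕ) : ∑ t ∈ Finset.Icc 1 N, (1 : ℝ) / (t : ℝ) ≤ 1 + Real.log N := by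
  refine le_trans (le_of_eq ?_) (harm_le N)
  induction N with
  | zero => simp
  | succ N ih =>
    rw [Finset.sum_Icc_succ_top (by omega), Finset.sum_range_succ, ih]
    push_cast
    rfl

/-- a sum over numbers in one residue class -/
theorem class_sum {y N : ℕ} (hy : 0 < y) {c : ℝ} (hc : 0 ≤ c) (Z : Finset ℕ)
    (hZ : ∀ z ∈ Z, 1 ≤ z ∧ z ≤ N) (hcl : ∀ z ∈ Z, ∀ z' ∈ Z, z % y = z' % y) :
    ∑ z ∈ Z, min (c * y / z) 1 ≤ 1 + c * (1 + Real.log N) := by
  classical
  set g : ℕ → ℝ := fun t => if t = 0 then 1 else c / t with hg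
  have hg0 : ∀ t, 0 ≤ g t := fun t => by
    rw [hg]; simp only
    split_ifs
    · exact zero_le_one
    · positivity
  have h1 : ∀ z ∈ Z, min (c * y / z) 1 ≤ g (z / y) := by
    intro z hz
    rw [hg]; simp only
    split_ifs with h
    · exact min_le_right _ _
    · refine (min_le_left _ _).trans ?_
      have hz0 : (0 : ℝ) < z := by exact_mod_cast (hZ z hz).1
      have ht0 : (0 : ℝ) < ((z / y : ℕ) : ℝ) := by exact_mod_cast Nat.pos_of_ne_zero h
      rw [div_le_div_iff₀ hz0 ht0]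
      have h2 : (y : ℝ) * ((z / y : ℕ) : ℝ) ≤ z := by exact_mod_cast Nat.mul_div_le z y
      have h3 := mul_le_mul_of_nonneg_left h2 hc
      linarith
  have hinj : Set.InjOn (fun z : ℕ => z / y) (Z : Set ℕ) := by
    intro z hz z' hz' h
    have h2 := hcl z hz z' hz'
    simp only at h
    rw [← Nat.div_add_mod z y, ← Nat.div_add_mod z' y, h, h2]
  have h2 : ∑ z ∈ Z, g (z / y) = ∑ t ∈ Z.image (fun z => z / y), g t :=
    (Finset.sum_image hinj).symm
  have h3 : Z.image (fun z => z / y) ⊆ Finset.range (N + 1) := by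
    intro t ht
    obtain ⟨z, hz, rfl⟩ := Finset.mem_image.1 ht
    have := (Nat.div_le_self z y).trans (hZ z hz).2
    exact Finset.mem_range.2 (by omega)
  have h4 : ∑ t ∈ Finset.range (N + 1), g t = 1 + c * ∑ t ∈ Finset.range N, 1 / ((t : ℝ) + 1) := by
    rw [Finset.sum_range_succ', Finset.mul_sum, add_comm]
    congr 1
    refine Finset.sum_congr rfl fun t _ => ?_
    rw [hg]; simp only
    rw [if_neg (by omega)]
    push_cast
    ring
  calc ∑ z ∈ Z, min (c * y / z) 1 ≤ ∑ z ∈ Z, g (z / y) := Finset.sum_le_sum h1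
    _ = ∑ t ∈ Z.image (fun z => z / y), g t := h2
    _ ≤ ∑ t ∈ Finset.range (N + 1), g t :=
        Finset.sum_le_sum_of_subset_of_nonneg h3 fun t _ _ => hg0 t
    _ = 1 + c * ∑ t ∈ Finset.range N, 1 / ((t : ℝ) + 1) := h4
    _ ≤ 1 + c * (1 + Real.log N) := by
        have := mul_le_mul_of_nonneg_left (harm_le N) hc
        linarith

variable {n : ℕ}

/-- the data which are fixed -/
def pr (i j : Fin n) (x : Fin n → ℤ) : (Fin n → ℤ) × (Fin n → ℕ) × (Fin n → ℕ) :=
  (fun k => (x k).sign, fun k => qq (x k).natAbs,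
    fun k => if k = i ∨ k = j then 1 else zz (x k).natAbs)

/-- the weight of the data -/
noncomputable def gw (p : (Fin n → ℤ) × (Fin n → ℕ) × (Fin n → ℕ)) : ℝ :=
  (∏ k, (1 : ℝ) / rd (p.2.1 k)) * ∏ k, (1 : ℝ) / (p.2.2 k)

theorem gw_nonneg (p : (Fin n → ℤ) × (Fin n → ℕ) × (Fin n → ℕ)) : 0 ≤ gw p := by
  unfold gw
  exact mul_nonneg (Finset.prod_nonneg fun _ _ => by positivity)
    (Finset.prod_nonneg fun _ _ => by positivity)

/-- the weight of a tuple -/
noncomputable def Wt (i j : Fin n) (x : Fin n → ℤ) : ℝ :=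
  Real.exp (min (Real.log (n * (x j).natAbs))
    (Real.log (zz (x i).natAbs) + Real.log (zz (x j).natAbs)) - lrad x)

theorem Wt_eq (i j : Fin n) (hij : i ≠ j) {x : Fin n → ℤ} (hx : Adm x) (hn : 1 ≤ n) :
    Wt i j x = gw (pr i j x) * min (n * (yy (x j).natAbs : ℝ) / zz (x i).natAbs) 1 := by
  classical
  have ha : ∀ i, (x i).natAbs ≠ 0 := fun i => Int.natAbs_ne_zero.2 (hx.1 i)
  have hz : ∀ k, (0 : ℝ) < zz (x k).natAbs := fun k => by exact_mod_cast zz_pos (ha k)
  have hr : ∀ k, (0 : ℝ) < rd (x k).natAbs := fun k => by exact_mod_cast rd_pos _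
  have hrq : ∀ k, (0 : ℝ) < rd (qq (x k).natAbs) := fun k => by exact_mod_cast rd_pos _
  have hn0 : (0 : ℝ) < n := by exact_mod_cast hn
  have hj0 : (0 : ℝ) < (x j).natAbs := by exact_mod_cast Nat.pos_of_ne_zero (ha j)
  have h1 : Real.exp (lrad x) = (∏ k, (rd (qq (x k).natAbs) : ℝ)) *
      ((∏ k, (if k = i ∨ k = j then (1 : ℝ) else zz (x k).natAbs)) *
        (zz (x i).natAbs * zz (x j).natAbs)) := by
    have e1 : Real.exp (lrad x) = ∏ k, (rd (x k).natAbs : ℝ) := by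
      unfold lrad
      rw [Real.exp_sum]
      refine Finset.prod_congr rfl fun k _ => ?_
      rw [lr_eq, Real.exp_log (hr k)]
    have e2 : ∏ k, (rd (x k).natAbs : ℝ) = (∏ k, (rd (qq (x k).natAbs) : ℝ)) *
        ∏ k, (zz (x k).natAbs : ℝ) := by
      rw [← Finset.prod_mul_distrib]
      refine Finset.prod_congr rfl fun k _ => ?_
      exact_mod_cast rd_eq (ha k)
    have e3 : ∏ k, (zz (x k).natAbs : ℝ) =
        (∏ k, (if k = i ∨ k = j then (1 : ℝ) else zz (x k).natAbs)) *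
          (zz (x i).natAbs * zz (x j).natAbs) := by
      have hjm : j ∈ Finset.univ.erase i := Finset.mem_erase.2 ⟨hij.symm, Finset.mem_univ _⟩
      rw [← Finset.mul_prod_erase Finset.univ _ (Finset.mem_univ i),
        ← Finset.mul_prod_erase _ _ hjm,
        ← Finset.mul_prod_erase Finset.univ (fun k => if k = i ∨ k = j then (1 : ℝ) else
          zz (x k).natAbs) (Finset.mem_univ i), ← Finset.mul_prod_erase _ (fun k =>
          if k = i ∨ k = j then (1 : ℝ) else zz (x k).natAbs) hjm, if_pos (Or.inl rfl),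
        if_pos (Or.inr rfl)]
      have e4 : ∏ k ∈ (Finset.univ.erase i).erase j, (if k = i ∨ k = j then (1 : ℝ) else
          zz (x k).natAbs) = ∏ k ∈ (Finset.univ.erase i).erase j, (zz (x k).natAbs : ℝ) := by
        refine Finset.prod_congr rfl fun k hk => ?_
        have h5 := Finset.mem_erase.1 hk
        have h6 := Finset.mem_erase.1 h5.2
        rw [if_neg (by tauto)]
      rw [e4]
      ring
    rw [e1, e2, e3]
  have h2 : gw (pr i j x) = ((∏ k, (rd (qq (x k).natAbs) : ℝ)) *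
      ∏ k, (if k = i ∨ k = j then (1 : ℝ) else zz (x k).natAbs))⁻¹ := by
    unfold gw pr
    simp only
    rw [mul_inv, ← Finset.prod_inv_distrib, ← Finset.prod_inv_distrib]
    congr 1
    · exact Finset.prod_congr rfl fun k _ => by rw [one_div]
    · refine Finset.prod_congr rfl fun k _ => ?_
      rw [one_div]
      split_ifs <;> simp
  set P1 : ℝ := ∏ k, (rd (qq (x k).natAbs) : ℝ) with hP1
  set P2 : ℝ := ∏ k, (if k = i ∨ k = j then (1 : ℝ) else zz (x k).natAbs) with hP2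
  have hP10 : 0 < P1 := Finset.prod_pos fun k _ => hrq k
  have hP20 : 0 < P2 := Finset.prod_pos fun k _ => by
    split_ifs
    · exact one_pos
    · exact hz k
  have h3 : Real.exp (min (Real.log (n * (x j).natAbs))
      (Real.log (zz (x i).natAbs) + Real.log (zz (x j).natAbs))) =
      min (n * (x j).natAbs : ℝ) (zz (x i).natAbs * zz (x j).natAbs) := by
    rw [Real.exp_monotone.map_min, Real.exp_log (by positivity), Real.exp_add,
      Real.exp_log (hz i), Real.exp_log (hz j)]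
  have h4 : ((x j).natAbs : ℝ) = yy (x j).natAbs * zz (x j).natAbs := by
    exact_mod_cast eq_yz (ha j)
  unfold Wt
  rw [Real.exp_sub, h3, h1, h2, h4]
  have hzi := hz i
  have hzj := hz j
  set a : ℝ := (zz (x i).natAbs : ℝ)
  set b : ℝ := (zz (x j).natAbs : ℝ)
  set w : ℝ := (yy (x j).natAbs : ℝ)
  have h5 : min (n * (w * b)) (a * b) = min (n * w / a) 1 * (a * b) := by
    rw [min_mul_of_nonneg _ _ (by positivity : (0 : ℝ) ≤ a * b), one_mul]
    congr 1
    field_simp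
  rw [h5]
  field_simp

/-- the sum over a fibre -/
theorem fibre (i j : Fin n) (hij : i ≠ j) (N : ℕ) (S : Finset (Fin n → ℤ))
    (hS : ∀ x ∈ S, Adm x ∧ siz x ≤ N) (p : (Fin n → ℤ) × (Fin n → ℕ) × (Fin n → ℕ)) :
    ∑ x ∈ S with pr i j x = p, min (n * (yy (x j).natAbs : ℝ) / zz (x i).natAbs) 1 ≤
      1 + n * (1 + Real.log N) := by
  classical
  set T := S.filter (fun x => pr i j x = p) with hT
  have hmem : ∀ x ∈ T, Adm x ∧ siz x ≤ N ∧ pr i j x = p := fun x hx => by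
    obtain ⟨h1, h2⟩ := Finset.mem_filter.1 hx
    exact ⟨(hS x h1).1, (hS x h1).2, h2⟩
  have ha : ∀ x ∈ T, ∀ k, (x k).natAbs ≠ 0 := fun x hx k => Int.natAbs_ne_zero.2 ((hmem x hx).1.1 k)
  have hsgn : ∀ x ∈ T, ∀ k, (x k).sign = p.1 k := fun x hx k => by rw [← (hmem x hx).2.2]; rfl
  have hq : ∀ x ∈ T, ∀ k, qq (x k).natAbs = p.2.1 k := fun x hx k => by
    rw [← (hmem x hx).2.2]; rfl
  have hy : ∀ x ∈ T, ∀ k, yy (x k).natAbs = p.2.1 k * rd (p.2.1 k) := fun x hx k => by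
    unfold yy; rw [hq x hx k]
  have hw : ∀ x ∈ T, ∀ k, k ≠ i → k ≠ j → zz (x k).natAbs = p.2.2 k := fun x hx k hi hj => by
    rw [← (hmem x hx).2.2]
    unfold pr
    simp only
    rw [if_neg (by tauto)]
  have hxk : ∀ x ∈ T, ∀ k, x k =
      p.1 k * ((p.2.1 k * rd (p.2.1 k) * zz (x k).natAbs : ℕ) : ℤ) := by
    intro x hx k
    have h1 := eq_yz (ha x hx k)
    rw [hy x hx k] at h1
    have h2 := Int.sign_mul_natAbs (x k)
    rw [hsgn x hx k] at h2
    calc x k = p.1 k * ((x k).natAbs : ℤ) := h2.symm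
      _ = p.1 k * ((p.2.1 k * rd (p.2.1 k) * zz (x k).natAbs : ℕ) : ℤ) := by rw [← h1]
  have hother : ∀ x ∈ T, ∀ x' ∈ T, ∀ k, k ≠ i → k ≠ j → x k = x' k := by
    intro x hx x' hx' k hi hj
    rw [hxk x hx k, hxk x' hx' k, hw x hx k hi hj, hw x' hx' k hi hj]
  have hsum : ∀ x ∈ T, ∀ x' ∈ T, x i + x j = x' i + x' j := by
    intro x hx x' hx'
    have hjm : j ∈ Finset.univ.erase i := Finset.mem_erase.2 ⟨hij.symm, Finset.mem_univ _⟩
    have e : ∀ z : Fin n → ℤ, ∑ k, z k = z i + (z j + ∑ k ∈ (Finset.univ.erase i).erase j, z k) :=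
      fun z => by
        rw [← Finset.add_sum_erase Finset.univ _ (Finset.mem_univ i),
          ← Finset.add_sum_erase _ _ hjm]
    have h1 := (hmem x hx).1.2.2
    have h2 := (hmem x' hx').1.2.2
    rw [e] at h1 h2
    have h3 : ∑ k ∈ (Finset.univ.erase i).erase j, x k =
        ∑ k ∈ (Finset.univ.erase i).erase j, x' k := by
      refine Finset.sum_congr rfl fun k hk => ?_
      have h5 := Finset.mem_erase.1 hk
      have h6 := Finset.mem_erase.1 h5.2
      exact hother x hx x' hx' k h6.1 h5.1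
    rw [h3] at h1
    linarith
  have hinj : Set.InjOn (fun x : Fin n → ℤ => zz (x i).natAbs) (T : Set (Fin n → ℤ)) := by
    intro x hx x' hx' h
    simp only at h
    have hi : x i = x' i := by rw [hxk x hx i, hxk x' hx' i, h]
    funext k
    by_cases hki : k = i
    · rw [hki]; exact hi
    by_cases hkj : k = j
    · rw [hkj]
      have := hsum x hx x' hx'
      linarith
    · exact hother x hx x' hx' k hki hkj
  rcases T.eq_empty_or_nonempty with hemp | ⟨x0, hx0⟩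
  · rw [hemp, Finset.sum_empty]
    have : 0 ≤ Real.log N := Real.log_natCast_nonneg N
    positivity
  set y : ℕ := p.2.1 j * rd (p.2.1 j) with hydef
  have hy0 : 0 < y := by
    have := yy_pos (ha x0 hx0 j)
    rwa [hy x0 hx0 j] at this
  have h1 : ∑ x ∈ T, min (n * (yy (x j).natAbs : ℝ) / zz (x i).natAbs) 1 =
      ∑ z ∈ T.image (fun x => zz (x i).natAbs), min ((n : ℝ) * y / z) 1 := by
    rw [Finset.sum_image hinj]
    refine Finset.sum_congr rfl fun x hx => ?_
    rw [hy x hx j]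
  rw [h1]
  refine class_sum hy0 (Nat.cast_nonneg n) _ ?_ ?_
  · intro z hz
    obtain ⟨x, hx, rfl⟩ := Finset.mem_image.1 hz
    refine ⟨zz_pos (ha x hx i), ?_⟩
    have h2 : zz (x i).natAbs ∣ (x i).natAbs := ⟨yy (x i).natAbs, by
      rw [mul_comm]; exact eq_yz (ha x hx i)⟩
    exact (Nat.le_of_dvd (Nat.pos_of_ne_zero (ha x hx i)) h2).trans
      ((le_siz x i).trans (hmem x hx).2.1)
  · intro z hz z' hz'
    obtain ⟨x, hx, rfl⟩ := Finset.mem_image.1 hz
    obtain ⟨x', hx', rfl⟩ := Finset.mem_image.1 hz'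
    have h2 := hsum x hx x' hx'
    rw [hxk x hx i, hxk x' hx' i, hxk x hx j, hxk x' hx' j] at h2
    -- coprimality
    have hcop : Nat.Coprime y (p.2.1 i * rd (p.2.1 i)) := by
      have h3 := (hmem x hx).1.2.1 j i hij.symm
      rw [Int.gcd_eq_natAbs_gcd_natAbs] at h3
      refine Nat.Coprime.coprime_dvd_left ?_ (Nat.Coprime.coprime_dvd_right ?_ h3)
      · exact ⟨zz (x j).natAbs, by rw [hydef, ← hy x hx j]; exact eq_yz (ha x hx j)⟩
      · exact ⟨zz (x i).natAbs, by rw [← hy x hx i]; exact eq_yz (ha x hx i)⟩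
    have hunit : IsUnit (p.1 i) := by
      rw [← hsgn x hx i]
      rcases lt_trichotomy (x i) 0 with h | h | h
      · rw [Int.sign_eq_neg_one_of_neg h]; exact isUnit_one.neg
      · exact absurd h ((hmem x hx).1.1 i)
      · rw [Int.sign_eq_one_of_pos h]; exact isUnit_one
    have h4 : (y : ℤ) ∣ ((zz (x i).natAbs : ℕ) : ℤ) - ((zz (x' i).natAbs : ℕ) : ℤ) := by
      have h5 : (y : ℤ) ∣ (p.1 i * ((p.2.1 i * rd (p.2.1 i) : ℕ) : ℤ)) *
          (((zz (x i).natAbs : ℕ) : ℤ) - ((zz (x' i).natAbs : ℕ) : ℤ)) := by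
        refine ⟨p.1 j * (((zz (x' j).natAbs : ℕ) : ℤ) - ((zz (x j).natAbs : ℕ) : ℤ)), ?_⟩
        push_cast at h2 ⊢
        rw [hydef]
        push_cast
        linarith
      have h6 : IsCoprime (y : ℤ) (p.1 i * ((p.2.1 i * rd (p.2.1 i) : ℕ) : ℤ)) := by
        refine IsCoprime.mul_right ?_ ?_
        · exact isCoprime_one_right.of_isCoprime_of_dvd_right hunit.dvd
        · exact Nat.isCoprime_iff_coprime.2 hcop
      exact h6.dvd_of_dvd_mul_left h5
    exact ((Nat.modEq_iff_dvd.2 h4).symm)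

/-- the data -/
def Dat (n N : ℕ) : Finset ((Fin n → ℤ) × (Fin n → ℕ) × (Fin n → ℕ)) :=
  (Fintype.piFinset fun _ : Fin n => ({-1, 1} : Finset ℤ)) ×ˢ
    ((Fintype.piFinset fun _ : Fin n => Finset.Icc 1 N) ×ˢ
      (Fintype.piFinset fun _ : Fin n => Finset.Icc 1 N))

theorem sum_gw (n N : ℕ) : ∑ p ∈ Dat n N, gw p ≤
    2 ^ n * ((∑ q ∈ Finset.Icc 1 N, (1 : ℝ) / rd q) ^ n * (1 + Real.log N) ^ n) := by
  classical
  unfold Dat
  rw [Finset.sum_product]
  have h1 : ∀ s ∈ (Fintype.piFinset fun _ : Fin n => ({-1, 1} : Finset ℤ)),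
      ∑ q ∈ (Fintype.piFinset fun _ : Fin n => Finset.Icc 1 N) ×ˢ
      (Fintype.piFinset fun _ : Fin n => Finset.Icc 1 N), gw (s, q) =
      (∑ q ∈ Finset.Icc 1 N, (1 : ℝ) / rd q) ^ n * (∑ w ∈ Finset.Icc 1 N, (1 : ℝ) / w) ^ n := by
    intro s _
    rw [Finset.sum_product]
    unfold gw
    simp only
    have h2 : ∀ f : ℕ → ℝ, ∑ q ∈ Fintype.piFinset fun _ : Fin n => Finset.Icc 1 N, ∏ k, f (q k) =
        (∑ q ∈ Finset.Icc 1 N, f q) ^ n := by
      intro f
      rw [← Finset.prod_univ_sum (fun _ : Fin n => Finset.Icc 1 N) (fun _ q => f q),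
        Finset.prod_const, Finset.card_univ, Fintype.card_fin]
    rw [← h2, ← h2, Finset.sum_mul_sum]
  rw [Finset.sum_congr rfl h1, Finset.sum_const, Fintype.card_piFinset, Finset.prod_const,
    Finset.card_univ, Fintype.card_fin, nsmul_eq_mul]
  have h3 : (({-1, 1} : Finset ℤ)).card = 2 := by decide
  rw [h3]
  push_cast
  refine mul_le_mul_of_nonneg_left (mul_le_mul_of_nonneg_left
    (pow_le_pow_left₀ (Finset.sum_nonneg fun _ _ => by positivity) (icc_le N) n) ?_) (by positivity)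
  exact pow_nonneg (Finset.sum_nonneg fun _ _ => by positivity) n

theorem pair_sum (i j : Fin n) (hij : i ≠ j) (N : ℕ) (S : Finset (Fin n → ℤ))
    (hS : ∀ x ∈ S, Adm x ∧ siz x ≤ N) :
    ∑ x ∈ S, Wt i j x ≤ 2 ^ n * ((∑ q ∈ Finset.Icc 1 N, (1 : ℝ) / rd q) ^ n *
      (1 + Real.log N) ^ n) * (1 + n * (1 + Real.log N)) := by
  classical
  have hn : 1 ≤ n := i.pos
  have hmaps : ∀ x ∈ S, pr i j x ∈ Dat n N := by
    intro x hx
    obtain ⟨h1, h2⟩ := hS x hx
    have ha : ∀ k, (x k).natAbs ≠ 0 := fun k => Int.natAbs_ne_zero.2 (h1.1 k)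
    have hle : ∀ k, (x k).natAbs ≤ N := fun k => (le_siz x k).trans h2
    unfold Dat pr
    simp only [Finset.mem_product, Fintype.mem_piFinset, Finset.mem_insert, Finset.mem_singleton,
      Finset.mem_Icc]
    refine ⟨fun k => ?_, fun k => ⟨Nat.pos_of_ne_zero (qq_ne (ha k)), ?_⟩, fun k => ?_⟩
    · rcases lt_trichotomy (x k) 0 with h | h | h
      · exact Or.inl (Int.sign_eq_neg_one_of_neg h)
      · exact absurd h (h1.1 k)
      · exact Or.inr (Int.sign_eq_one_of_pos h)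
    · exact (Nat.div_le_self _ _).trans (hle k)
    · split_ifs
      · exact ⟨le_rfl, (Nat.pos_of_ne_zero (ha k)).trans_le (hle k)⟩
      · refine ⟨zz_pos (ha k), ?_⟩
        have h3 : zz (x k).natAbs ∣ (x k).natAbs := ⟨yy (x k).natAbs, by
          rw [mul_comm]; exact eq_yz (ha k)⟩
        exact (Nat.le_of_dvd (Nat.pos_of_ne_zero (ha k)) h3).trans (hle k)
  rw [← Finset.sum_fiberwise_of_maps_to hmaps]
  have hlog : 0 ≤ Real.log N := Real.log_natCast_nonneg N
  have hB : (0 : ℝ) ≤ 1 + n * (1 + Real.log N) := by positivity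
  calc ∑ p ∈ Dat n N, ∑ x ∈ S with pr i j x = p, Wt i j x
      ≤ ∑ p ∈ Dat n N, gw p * (1 + n * (1 + Real.log N)) := by
        refine Finset.sum_le_sum fun p _ => ?_
        have h4 : ∑ x ∈ S with pr i j x = p, Wt i j x = gw p *
            ∑ x ∈ S with pr i j x = p, min (n * (yy (x j).natAbs : ℝ) / zz (x i).natAbs) 1 := by
          rw [Finset.mul_sum]
          refine Finset.sum_congr rfl fun x hx => ?_
          obtain ⟨h5, h6⟩ := Finset.mem_filter.1 hx
          rw [Wt_eq i j hij (hS x h5).1 hn, h6]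
        rw [h4]
        exact mul_le_mul_of_nonneg_left (fibre i j hij N S hS p) (gw_nonneg p)
    _ = (∑ p ∈ Dat n N, gw p) * (1 + n * (1 + Real.log N)) := by rw [Finset.sum_mul]
    _ ≤ _ := mul_le_mul_of_nonneg_right (sum_gw n N) hB

/-- `1 + log N` is small -/
theorem log_small {δ : ℝ} (hδ : 0 < δ) : ∃ C : ℝ, 0 < C ∧ ∀ X : ℝ, 1 ≤ X →
    1 + Real.log X ≤ C * X ^ δ := by
  refine ⟨1 + 1 / δ, by positivity, fun X hX => ?_⟩
  have h1 : 1 ≤ X ^ δ := Real.one_le_rpow hX hδ.le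
  have h2 := Real.log_le_rpow_div (by linarith : (0 : ℝ) ≤ X) hδ
  have h3 : (1 + 1 / δ) * X ^ δ = X ^ δ + X ^ δ / δ := by ring
  rw [h3]
  linarith

/-- **the count of the tuples with large radical** -/
theorem cnt (hn : 4 ≤ n) {κ : ℝ} (hκ0 : 0 ≤ κ) (hκ1 : κ ≤ 1) {δ : ℝ} (hδ : 0 < δ) :
    ∃ C : ℝ, ∀ X : ℝ, 1 ≤ X →
      {x : Fin n → ℤ | Adm x ∧ κ * Real.log (siz x) ≤ n * Real.log (siz x) - lrad x ∧
        (siz x : ℝ) ≤ X}.Finite ∧
      ({x : Fin n → ℤ | Adm x ∧ κ * Real.log (siz x) ≤ n * Real.log (siz x) - lrad x ∧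
        (siz x : ℝ) ≤ X}.ncard : ℝ) ≤ C * X ^ ((n : ℝ) - 1 - κ + δ) := by
  classical
  have hn' : (4 : ℝ) ≤ n := by exact_mod_cast hn
  set δ1 : ℝ := δ / (2 * n + 1) with hδ1
  have hδ10 : 0 < δ1 := by positivity
  obtain ⟨C1, hC1, h1⟩ := log_small hδ10
  obtain ⟨C2, hC2, h2⟩ := sum_inv_rho ∅ hδ10
  refine ⟨n ^ 2 * (2 ^ n * (C2 ^ n * C1 ^ n) * ((1 + n) * C1)), fun X hX => ?_⟩
  have hX0 : 0 < X := by linarith
  set N : ℕ := ⌊X⌋₊ with hN
  have hN1 : 1 ≤ N := Nat.le_floor (by exact_mod_cast hX)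
  have hN1' : (1 : ℝ) ≤ N := by exact_mod_cast hN1
  have hNX : (N : ℝ) ≤ X := Nat.floor_le hX0.le
  set V : Set (Fin n → ℤ) := {x : Fin n → ℤ | Adm x ∧ κ * Real.log (siz x) ≤
    n * Real.log (siz x) - lrad x ∧ (siz x : ℝ) ≤ X} with hV
  have hVfin : V.Finite := by
    apply Set.Finite.subset (Set.Finite.pi' (fun _ : Fin n => Set.finite_Icc (-(N : ℤ)) N))
    rintro x ⟨-, -, h3⟩ i
    have h4 : siz x ≤ N := Nat.le_floor h3
    have h5 := (le_siz x i).trans h4
    rw [Set.mem_Icc]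
    omega
  refine ⟨hVfin, ?_⟩
  set S := hVfin.toFinset with hS
  have hSmem : ∀ x ∈ S, Adm x ∧ κ * Real.log (siz x) ≤ n * Real.log (siz x) - lrad x ∧
      (siz x : ℝ) ≤ X := fun x hx => (Set.Finite.mem_toFinset hVfin).1 hx
  have hSN : ∀ x ∈ S, Adm x ∧ siz x ≤ N := fun x hx =>
    ⟨(hSmem x hx).1, Nat.le_floor (hSmem x hx).2.2⟩
  rw [Set.ncard_eq_toFinset_card V hVfin, ← hS]
  set w : ℝ := X ^ ((n : ℝ) - 1 - κ) with hw
  have hw0 : 0 < w := Real.rpow_pos_of_pos hX0 _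
  have hWt0 : ∀ (i j : Fin n) (x : Fin n → ℤ), 0 ≤ Wt i j x := fun _ _ _ => (Real.exp_pos _).le
  -- every tuple has weight at least one
  have hone : ∀ x ∈ S, (1 : ℝ) ≤ w * ∑ a ∈ (Finset.univ : Finset (Fin n × Fin n)) with a.1 ≠ a.2,
      Wt a.1 a.2 x := by
    intro x hx
    obtain ⟨h3, h4, h5⟩ := hSmem x hx
    obtain ⟨i, j, hij, g1, g2⟩ := good_pair hn h3
    have hs1 : 1 ≤ siz x := by
      have := le_siz x i
      have h6 : (x i).natAbs ≠ 0 := Int.natAbs_ne_zero.2 (h3.1 i)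
      omega
    have hL0 : 0 ≤ Real.log (siz x) := Real.log_natCast_nonneg _
    have hLX : Real.log (siz x) ≤ Real.log X :=
      Real.log_le_log (by exact_mod_cast hs1) h5
    have h6 : (1 : ℝ) ≤ w * Wt i j x := by
      rw [hw, Wt, Real.rpow_def_of_pos hX0, ← Real.exp_add, Real.one_le_exp_iff]
      have h7 : min (lrad x - ((n : ℝ) - 2) * Real.log (siz x)) (Real.log (siz x)) ≤
          min (Real.log (n * (x j).natAbs))
            (Real.log (zz (x i).natAbs) + Real.log (zz (x j).natAbs)) :=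
        le_min ((min_le_right _ _).trans g1) g2
      have h8 : Real.log (siz x) * ((n : ℝ) - 1 - κ) ≤ Real.log X * ((n : ℝ) - 1 - κ) :=
        mul_le_mul_of_nonneg_right hLX (by linarith)
      rcases min_choice (lrad x - ((n : ℝ) - 2) * Real.log (siz x)) (Real.log (siz x)) with h9 | h9
      · rw [h9] at h7
        have h10 := mul_le_mul_of_nonneg_right hκ1 hL0
        nlinarith
      · rw [h9] at h7
        nlinarith
    refine h6.trans (mul_le_mul_of_nonneg_left ?_ hw0.le)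
    exact Finset.single_le_sum (f := fun a : Fin n × Fin n => Wt a.1 a.2 x)
      (fun a _ => hWt0 a.1 a.2 x) (Finset.mem_filter.2 ⟨Finset.mem_univ (i, j), hij⟩)
  have hR : ∑ q ∈ Finset.Icc 1 N, (1 : ℝ) / rd q ≤ C2 * X ^ δ1 := by
    refine le_trans (le_of_eq ?_) ((h2 N hN1).trans (mul_le_mul_of_nonneg_left
      (Real.rpow_le_rpow (by positivity) hNX hδ10.le) hC2.le))
    refine Finset.sum_congr rfl fun q _ => ?_
    unfold rd rho
    rw [Int.natAbs_natCast, Finset.sdiff_empty]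
  have hR0 : 0 ≤ ∑ q ∈ Finset.Icc 1 N, (1 : ℝ) / rd q := Finset.sum_nonneg fun _ _ => by positivity
  have hlogN : 1 + Real.log N ≤ C1 * X ^ δ1 := (h1 N hN1').trans (mul_le_mul_of_nonneg_left
      (Real.rpow_le_rpow (by positivity) hNX hδ10.le) hC1.le)
  have hlogN0 : 0 ≤ Real.log N := Real.log_natCast_nonneg N
  have hXd : 1 ≤ X ^ δ1 := Real.one_le_rpow hX hδ10.le
  set D : ℝ := 2 ^ n * ((∑ q ∈ Finset.Icc 1 N, (1 : ℝ) / rd q) ^ n *
      (1 + Real.log N) ^ n) * (1 + n * (1 + Real.log N)) with hD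
  have hD0 : 0 ≤ D := by positivity
  have hDle : D ≤ (2 ^ n * (C2 ^ n * C1 ^ n) * ((1 + n) * C1)) * X ^ δ := by
    have k1 : (∑ q ∈ Finset.Icc 1 N, (1 : ℝ) / rd q) ^ n ≤ (C2 * X ^ δ1) ^ n :=
      pow_le_pow_left₀ hR0 hR n
    have k2 : (1 + Real.log N) ^ n ≤ (C1 * X ^ δ1) ^ n := pow_le_pow_left₀ (by linarith) hlogN n
    have k3 : 1 + (n : ℝ) * (1 + Real.log N) ≤ (1 + n) * (C1 * X ^ δ1) := by
      have : 1 ≤ 1 + Real.log N := by linarith
      have h11 := mul_le_mul_of_nonneg_left hlogN (show (0 : ℝ) ≤ 1 + n by positivity)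
      nlinarith
    have k4 : D ≤ 2 ^ n * ((C2 * X ^ δ1) ^ n * (C1 * X ^ δ1) ^ n) * ((1 + n) * (C1 * X ^ δ1)) := by
      rw [hD]
      refine mul_le_mul ?_ k3 (by positivity) (by positivity)
      refine mul_le_mul_of_nonneg_left ?_ (by positivity)
      exact mul_le_mul k1 k2 (by positivity) (by positivity)
    refine k4.trans (le_of_eq ?_)
    have k5 : X ^ δ = (X ^ δ1) ^ n * (X ^ δ1) ^ n * X ^ δ1 := by
      rw [← Real.rpow_natCast (X ^ δ1) n, ← Real.rpow_mul hX0.le, ← Real.rpow_add hX0,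
        ← Real.rpow_add hX0]
      congr 1
      rw [hδ1]
      field_simp
      ring
    rw [k5, mul_pow, mul_pow]
    ring
  calc (S.card : ℝ) = ∑ x ∈ S, (1 : ℝ) := by rw [Finset.sum_const, nsmul_eq_mul, mul_one]
    _ ≤ ∑ x ∈ S, w * ∑ a ∈ (Finset.univ : Finset (Fin n × Fin n)) with a.1 ≠ a.2,
        Wt a.1 a.2 x := Finset.sum_le_sum hone
    _ = w * ∑ a ∈ (Finset.univ : Finset (Fin n × Fin n)) with a.1 ≠ a.2, ∑ x ∈ S,
        Wt a.1 a.2 x := by rw [← Finset.mul_sum, Finset.sum_comm]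
    _ ≤ w * ∑ a ∈ (Finset.univ : Finset (Fin n × Fin n)) with a.1 ≠ a.2, D := by
        refine mul_le_mul_of_nonneg_left (Finset.sum_le_sum fun a ha => ?_) hw0.le
        exact pair_sum a.1 a.2 (Finset.mem_filter.1 ha).2 N S hSN
    _ ≤ w * (n ^ 2 * D) := by
        refine mul_le_mul_of_nonneg_left ?_ hw0.le
        rw [Finset.sum_const, nsmul_eq_mul]
        refine mul_le_mul_of_nonneg_right ?_ hD0
        have h12 := Finset.card_filter_le (Finset.univ : Finset (Fin n × Fin n))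
          (fun a => a.1 ≠ a.2)
        rw [Finset.card_univ, Fintype.card_prod, Fintype.card_fin] at h12
        have h13 : (((Finset.univ : Finset (Fin n × Fin n)).filter
          (fun a => a.1 ≠ a.2)).card : ℝ) ≤ ((n * n : ℕ) : ℝ) := by exact_mod_cast h12
        refine h13.trans (le_of_eq ?_)
        push_cast
        ring
    _ ≤ w * (n ^ 2 * ((2 ^ n * (C2 ^ n * C1 ^ n) * ((1 + n) * C1)) * X ^ δ)) :=
        mul_le_mul_of_nonneg_left (mul_le_mul_of_nonneg_left hDle (by positivity)) hw0.le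
    _ = n ^ 2 * (2 ^ n * (C2 ^ n * C1 ^ n) * ((1 + n) * C1)) * X ^ ((n : ℝ) - 1 - κ + δ) := by
        rw [Real.rpow_add hX0, ← hw]
        ring

end Q273.SN
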