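import Pool.Agent.Q273.SN.Law

/-!
# Pairwise coprime tuples with sum zero: the law in terms of the radical, dimensions
-/

set_option autoImplicit false

namespace Q273.SN

open MeasureTheory
open Q273.NC (ZHatN)
open Pool.Agent.TH867.SQ (lr lr_nonneg)

variable {N : ℕ}

open scoped Classical in
/-- **the law in terms of the radical** -/
theorem lawB (hN : 1 ≤ N) [MeasurableSpace (ZHatN N)] [BorelSpace (ZHatN N)]
    (μ : Measure (ZHatN N)) [IsFiniteMeasure μ] [μ.IsAddLeftInvariant] :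
    ∀ᵐ u : (Fin N → ℝ) × ZHatN N ∂(volume.prod μ), ∀ V : Finset Nat.Primes,
      ∀ ε : ℝ, 0 < ε → ∃ C : ℝ, ∀ x : Fin (N + 2) → ℤ, Adm x →
        Real.log (siz x) ≤ (1 + lrad x) ^ 2 →
        N * mZ V u (rt x) ≤ (((N : ℝ) + 1) / (N + 2) + ε) * lrad x + C := by
  have h := gen hN μ (T := Fin (N + 2) → ℤ) rt (fun x => Real.exp (lrad x))
    {x : Fin (N + 2) → ℤ | Adm x ∧ Real.log (siz x) ≤ (1 + lrad x) ^ 2}
    (fun x _ => Real.one_le_exp (lrad_nonneg x)) (s := ((N : ℝ) + 1) / (N + 2)) (by positivity)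
    (fun δ hδ => ?_)
  · filter_upwards [h] with u hu
    intro V ε hε
    obtain ⟨C, hC⟩ := hu V ε hε
    refine ⟨C, fun x hx hle => ?_⟩
    have h1 := hC x ⟨hx, hle⟩
    rwa [Real.log_exp] at h1
  · obtain ⟨η, hη, C, hC, h1⟩ :=
      (Pool.Agent.Results.MP_7ecdd4_nt.CountByRadicalSharp.result (N + 2) (by omega)).1 δ hδ
    refine ⟨C, fun X hX => ?_⟩
    obtain ⟨h2, h3⟩ := h1 X hX
    have hX0 : 0 < X := by linarith
    have hlX : 0 ≤ Real.log X := Real.log_nonneg hX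
    have hsub : {x | x ∈ {x : Fin (N + 2) → ℤ | Adm x ∧ Real.log (siz x) ≤ (1 + lrad x) ^ 2} ∧
        Real.exp (lrad x) ≤ X} ⊆
        Pool.Agent.Results.MP_7ecdd4_nt.CountByRadicalSharp.Tuples (N + 2) X
          (Real.exp ((1 + Real.log X) ^ (2 + η))) := by
      rintro x ⟨⟨h4, h5⟩, h6⟩
      have h7 : lrad x ≤ Real.log X := by
        have := Real.log_le_log (Real.exp_pos _) h6
        rwa [Real.log_exp] at this
      have h8 : (rad x : ℝ) = Real.exp (lrad x) := by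
        rw [← log_rad h4, Real.exp_log (by exact_mod_cast rad_pos x)]
      refine ⟨⟨h4.1, fun i j hij => Int.isCoprime_iff_gcd_eq_one.2 (h4.2.1 i j hij), h4.2.2⟩, ?_,
        fun i => ?_⟩
      · show (rad x : ℝ) ≤ X
        rw [h8]
        exact h6
      · have h9 : |((x i : ℤ) : ℝ)| ≤ siz x := by
          have := le_siz x i
          rw [← Int.cast_abs, Int.abs_eq_natAbs]
          exact_mod_cast this
        have hs : (0 : ℝ) < siz x := by exact_mod_cast siz_pos (by omega) h4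
        have h10 : (siz x : ℝ) ≤ Real.exp ((1 + lrad x) ^ 2) :=
          (Real.log_le_iff_le_exp hs).1 h5
        refine h9.trans (h10.trans (Real.exp_le_exp.2 ?_))
        have h11 : (1 + lrad x) ^ 2 ≤ (1 + Real.log X) ^ 2 :=
          pow_le_pow_left₀ (by linarith [lrad_nonneg x]) (by linarith) 2
        refine h11.trans ?_
        rw [← Real.rpow_natCast]
        refine Real.rpow_le_rpow_of_exponent_le (by linarith) ?_
        push_cast
        linarith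
    refine ⟨h2.subset hsub, ?_⟩
    refine (by exact_mod_cast Set.ncard_le_ncard hsub h2 : (_ : ℝ) ≤ _).trans (h3.trans (le_of_eq ?_))
    congr 2
    push_cast
    ring

/-- dimension, large radicals -/
theorem dimC (hN : 2 ≤ N) {Y : Type*} [MetricSpace Y] (φ : (Fin (N + 2) → ℤ) → Y) {κ τ : ℝ}
    (h0 : 0 ≤ κ) (h1 : κ ≤ 1) (hτ : 0 < τ) :
    ∃ E : Set Y, dimH E ≤ ENNReal.ofReal (((N : ℝ) + 1 - κ) / τ) ∧ ∀ ξ : Y, ξ ∉ E → ∀ A : ℝ,
      {x : Fin (N + 2) → ℤ | Adm x ∧ lrad x ≤ ((N : ℝ) + 2 - κ) * Real.log (siz x) ∧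
        dist ξ (φ x) ≤ A * (siz x : ℝ) ^ (-τ)}.Finite := by
  have hN' : (2 : ℝ) ≤ N := by exact_mod_cast hN
  obtain ⟨E, h2, h3⟩ := Q273.Apx.approx {x : Fin (N + 2) → ℤ | Adm x ∧
      κ * Real.log (siz x) ≤ ((N + 2 : ℕ) : ℝ) * Real.log (siz x) - lrad x}
    (fun x => (siz x : ℝ)) φ (s := (N : ℝ) + 1 - κ) (τ := τ) (by linarith) hτ (fun ε hε => by
      obtain ⟨C, hC⟩ := cnt (n := N + 2) (by omega) h0 h1 hε
      refine ⟨C, fun X hX => ?_⟩
      have hset : {x : Fin (N + 2) → ℤ | x ∈ {x : Fin (N + 2) → ℤ | Adm x ∧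
            κ * Real.log (siz x) ≤ ((N + 2 : ℕ) : ℝ) * Real.log (siz x) - lrad x} ∧
            (siz x : ℝ) ≤ X} = {x : Fin (N + 2) → ℤ | Adm x ∧
            κ * Real.log (siz x) ≤ ((N + 2 : ℕ) : ℝ) * Real.log (siz x) - lrad x ∧
            (siz x : ℝ) ≤ X} := by
          ext x
          exact and_assoc
      rw [hset]
      refine ⟨(hC X hX).1, (hC X hX).2.trans (le_of_eq ?_)⟩
      congr 2
      push_cast
      ring)
  refine ⟨E, h2, fun ξ hξ A => (h3 ξ hξ A).subset ?_⟩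
  rintro x ⟨h4, h5, h6⟩
  refine ⟨⟨h4, ?_⟩, h6⟩
  push_cast
  linarith

/-- dimension, small radicals -/
theorem dimA (hN : 2 ≤ N) {Y : Type*} [MetricSpace Y] (φ : (Fin (N + 2) → ℤ) → Y) {M τ : ℝ}
    (hM : 10 / (3 * (N : ℝ) + 4) ≤ M) (hτ : 0 < τ) :
    ∃ E : Set Y, dimH E ≤ ENNReal.ofReal ((3 * (N : ℝ) + 1) / ((3 * (N : ℝ) + 4) * M * τ)) ∧
      ∀ ξ : Y, ξ ∉ E → ∀ A : ℝ,
      {x : Fin (N + 2) → ℤ | Adm x ∧ M * lrad x < Real.log (siz x) ∧
        dist ξ (φ x) ≤ A * (siz x : ℝ) ^ (-τ)}.Finite := by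
  have hN' : (2 : ℝ) ≤ N := by exact_mod_cast hN
  have hM0 : 0 < M := lt_of_lt_of_le (by positivity) hM
  have e1 : (3 : ℝ) * ((N + 2 : ℕ) : ℝ) - 2 = 3 * N + 4 := by push_cast; ring
  have e2 : (3 : ℝ) * ((N + 2 : ℕ) : ℝ) - 5 = 3 * N + 1 := by push_cast; ring
  obtain ⟨E, h2, h3⟩ := Q273.Apx.approx {x : Fin (N + 2) → ℤ | Adm x ∧
      M * lrad x < Real.log (siz x)}
    (fun x => (siz x : ℝ)) φ (s := (3 * (N : ℝ) + 1) / ((3 * (N : ℝ) + 4) * M)) (τ := τ)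
    (by positivity) hτ (fun ε hε => by
      obtain ⟨C, hC⟩ := cntA (n := N + 2) (M := M) (by omega) (by rw [e1]; exact hM) hε
      refine ⟨C, fun X hX => ?_⟩
      have h4 := hC X hX
      rw [e1, e2] at h4
      exact h4)
  refine ⟨E, ?_, fun ξ hξ A => (h3 ξ hξ A).subset ?_⟩
  · rw [div_div] at h2
    exact h2
  · rintro x ⟨h4, h5, h6⟩
    exact ⟨⟨h4, h5⟩, h6⟩

theorem siz_le_one {n : ℕ} {x : Fin n → ℤ} (hx : Adm x) (h : rad x ≤ 1) : siz x ≤ 1 := by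
  unfold siz
  apply Finset.sup_le
  intro i _
  by_contra hcon
  push Not at hcon
  obtain ⟨p, hp, hdvd⟩ := Nat.exists_prime_and_dvd (show (x i).natAbs ≠ 1 by omega)
  have h1 : p ∣ (∏ i, x i).natAbs := by
    refine hdvd.trans ?_
    rw [Int.natAbs_dvd_natAbs]
    exact Finset.dvd_prod_of_mem _ (Finset.mem_univ i)
  have h0 : (∏ i, x i).natAbs ≠ 0 := by
    rw [Int.natAbs_ne_zero]
    exact Finset.prod_ne_zero_iff.2 fun i _ => hx.1 i
  have h2 : p ∈ (∏ i, x i).natAbs.primeFactors := Nat.mem_primeFactors.2 ⟨hp, h1, h0⟩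
  have h3 : p ≤ rad x := Nat.le_of_dvd (rad_pos x) (Finset.dvd_prod_of_mem _ h2)
  have := hp.two_le
  omega

/-- one exponent for all tuples near a point -/
theorem dimZ (hN : 2 ≤ N) {Y : Type*} [MetricSpace Y] (φ : (Fin (N + 2) → ℤ) → Y) :
    ∃ E : Set Y, dimH E = 0 ∧ ∀ ξ : Y, ξ ∉ E → ∀ τ A : ℝ, 0 < τ → ∃ M : ℝ,
      ∀ x : Fin (N + 2) → ℤ, Adm x → dist ξ (φ x) ≤ A * (siz x : ℝ) ^ (-τ) →
        (siz x : ℝ) ≤ (rad x : ℝ) ^ M := by
  have hN' : (2 : ℝ) ≤ N := by exact_mod_cast hN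
  have hex : ∀ m k : ℕ, ∃ E : Set Y,
      dimH E ≤ ENNReal.ofReal ((3 * (N : ℝ) + 1) /
        ((3 * (N : ℝ) + 4) * ((k : ℝ) + 1) * (1 / ((m : ℝ) + 1)))) ∧
      ∀ ξ : Y, ξ ∉ E → ∀ A : ℝ, {x : Fin (N + 2) → ℤ | Adm x ∧
        ((k : ℝ) + 1) * lrad x < Real.log (siz x) ∧ dist ξ (φ x) ≤
        A * (siz x : ℝ) ^ (-(1 / ((m : ℝ) + 1)))}.Finite := by
    intro m k
    apply dimA hN φ _ (by positivity)
    have hk : (0 : ℝ) ≤ k := Nat.cast_nonneg k
    rw [div_le_iff₀ (by linarith)]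
    nlinarith
  choose E h4 h5 using hex
  refine ⟨⋃ m, ⋂ k, E m k, ?_, fun ξ hξ τ A hτ => ?_⟩
  · rw [dimH_iUnion]
    simp only [ENNReal.iSup_eq_zero]
    intro m
    have h6 : ∀ k : ℕ, dimH (⋂ k, E m k) ≤ ENNReal.ofReal ((3 * (N : ℝ) + 1) /
        ((3 * (N : ℝ) + 4) * ((k : ℝ) + 1) * (1 / ((m : ℝ) + 1)))) :=
      fun k => (dimH_mono (Set.iInter_subset _ k)).trans (h4 m k)
    have h7 : Filter.Tendsto (fun k : ℕ => ENNReal.ofReal ((3 * (N : ℝ) + 1) /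
        ((3 * (N : ℝ) + 4) * ((k : ℝ) + 1) * (1 / ((m : ℝ) + 1))))) Filter.atTop
        (nhds (ENNReal.ofReal 0)) := by
      apply ENNReal.tendsto_ofReal
      have h8 : Filter.Tendsto (fun k : ℕ => (3 * (N : ℝ) + 4) * ((k : ℝ) + 1) *
          (1 / ((m : ℝ) + 1))) Filter.atTop Filter.atTop :=
        ((Filter.tendsto_atTop_add_const_right _ _ tendsto_natCast_atTop_atTop).const_mul_atTop
          (by linarith)).atTop_mul_const (by positivity)
      exact h8.const_div_atTop _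
    rw [ENNReal.ofReal_zero] at h7
    exact le_antisymm (ge_of_tendsto' h7 h6) bot_le
  · obtain ⟨m, hm⟩ := exists_nat_one_div_lt hτ
    have hξ' : ξ ∉ ⋂ k, E m k := fun h => hξ (Set.mem_iUnion.2 ⟨m, h⟩)
    rw [Set.mem_iInter] at hξ'
    push Not at hξ'
    obtain ⟨k, hk⟩ := hξ'
    have hfin := h5 m k ξ hk |A|
    obtain ⟨L, hL⟩ := (hfin.image (fun x => (siz x : ℝ))).bddAbove
    obtain ⟨j, hj⟩ := pow_unbounded_of_one_lt L (one_lt_two : (1 : ℝ) < 2)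
    refine ⟨max ((k : ℝ) + 1) j, fun x hx hP => ?_⟩
    have hs1 : (1 : ℝ) ≤ (siz x : ℝ) := by exact_mod_cast siz_pos (by omega) hx
    rcases Nat.lt_or_ge (rad x) 2 with hr | hr
    · have h6 : rad x = 1 := by have := rad_pos x; omega
      rw [h6, Nat.cast_one, Real.one_rpow]
      exact_mod_cast siz_le_one hx (by omega)
    · have h2r : (2 : ℝ) ≤ (rad x : ℝ) := by exact_mod_cast hr
      by_cases hbad : (siz x : ℝ) ≤ (rad x : ℝ) ^ ((k : ℝ) + 1)
      · exact hbad.trans (Real.rpow_le_rpow_of_exponent_le (by linarith) (le_max_left _ _))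
      · have h6 : (siz x : ℝ) ≤ L := by
          apply hL
          refine ⟨x, ⟨hx, ?_, ?_⟩, rfl⟩
          · push Not at hbad
            have h7 := Real.log_lt_log (by positivity) hbad
            rwa [Real.log_rpow (by linarith), log_rad hx] at h7
          · refine hP.trans (mul_le_mul (le_abs_self A) ?_ (by positivity) (abs_nonneg A))
            exact Real.rpow_le_rpow_of_exponent_le hs1 (by linarith)
        calc (siz x : ℝ) ≤ 2 ^ j := h6.trans hj.le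
          _ = (2 : ℝ) ^ (j : ℝ) := (Real.rpow_natCast 2 j).symm
          _ ≤ (rad x : ℝ) ^ (j : ℝ) := Real.rpow_le_rpow (by norm_num) h2r (Nat.cast_nonneg _)
          _ ≤ _ := Real.rpow_le_rpow_of_exponent_le (by linarith) (le_max_right _ _)

end Q273.SN
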