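import Pool.Agent.Q273.SN.Gen
import Pool.Agent.Q273.SN.Cnt
import Pool.Agent.Q273.MV.Trade2
import Pool.Agent.Q273.Apx
import Pool.Agent.Results.MP_7ecdd4_nt.FewExceptions
import Pool.Agent.Results.MP_7ecdd4_nt.CountByRadicalSharp

/-!
# Pairwise coprime tuples with sum zero: laws near almost every adelic point
-/

set_option autoImplicit false

namespace Q273.SN

open MeasureTheory
open Q273.NC (ZHatN)
open Pool.Agent.TH867.SQ (lr lr_nonneg)

variable {N : ℕ}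

/-- the ratios `x_(j+1) / x_0` -/
def rt (x : Fin (N + 2) → ℤ) : Fin N → ℚ := fun j => (x j.succ.castSucc : ℚ) / (x 0 : ℚ)

theorem siz_pos {n : ℕ} (hn : 1 ≤ n) {x : Fin n → ℤ} (hx : Adm x) : 1 ≤ siz x := by
  have := le_siz x ⟨0, hn⟩
  have h6 : (x ⟨0, hn⟩).natAbs ≠ 0 := Int.natAbs_ne_zero.2 (hx.1 _)
  omega

theorem lrad_nonneg {n : ℕ} (x : Fin n → ℤ) : 0 ≤ lrad x :=
  Finset.sum_nonneg fun _ _ => lr_nonneg _

theorem lrad_le {n : ℕ} {x : Fin n → ℤ} (hx : Adm x) : lrad x ≤ n * Real.log (siz x) := by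
  unfold lrad
  refine (Finset.sum_le_card_nsmul _ _ (Real.log (siz x)) fun i _ => ?_).trans (le_of_eq ?_)
  · have h1 : (x i).natAbs ≠ 0 := Int.natAbs_ne_zero.2 (hx.1 i)
    refine (Pool.Agent.TH867.SQ.lr_le_log h1).trans (Real.log_le_log ?_ ?_)
    · exact_mod_cast Nat.pos_of_ne_zero h1
    · exact_mod_cast le_siz x i
  · rw [Finset.card_univ, Fintype.card_fin, nsmul_eq_mul]

/-- the radical -/
def rad {n : ℕ} (x : Fin n → ℤ) : ℕ := ∏ p ∈ (∏ i, x i).natAbs.primeFactors, p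

theorem log_rad {n : ℕ} {x : Fin n → ℤ} (hx : Adm x) : Real.log (rad x) = lrad x :=
  Pool.Agent.TH867.NA.log_rad x hx.1 fun i j hij => Int.isCoprime_iff_gcd_eq_one.2 (hx.2.1 i j hij)

theorem rad_pos {n : ℕ} (x : Fin n → ℤ) : 0 < rad x :=
  Finset.prod_pos fun _ hp => (Nat.prime_of_mem_primeFactors hp).pos

/-- the count of the exceptions -/
theorem cntA {n : ℕ} (hn : 4 ≤ n) {M : ℝ} (hM : 10 / (3 * (n : ℝ) - 2) ≤ M) {δ : ℝ} (hδ : 0 < δ) :
    ∃ C : ℝ, ∀ X : ℝ, 1 ≤ X →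
      {x : Fin n → ℤ | (Adm x ∧ M * lrad x < Real.log (siz x)) ∧ (siz x : ℝ) ≤ X}.Finite ∧
      ({x : Fin n → ℤ | (Adm x ∧ M * lrad x < Real.log (siz x)) ∧ (siz x : ℝ) ≤ X}.ncard : ℝ) ≤
        C * X ^ ((3 * (n : ℝ) - 5) / ((3 * (n : ℝ) - 2) * M) + δ) := by
  obtain ⟨C, hC⟩ := Pool.Agent.Results.MP_7ecdd4_nt.FewExceptions.result n hn M hM δ hδ
  refine ⟨|C|, fun X hX => ?_⟩
  have hX0 : 0 < X := by linarith
  set L : ℕ := ⌊X⌋₊ with hL
  have hL1 : 1 ≤ L := Nat.le_floor (by exact_mod_cast hX)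
  have hLX : (L : ℝ) ≤ X := Nat.floor_le hX0.le
  have hn' : (4 : ℝ) ≤ n := by exact_mod_cast hn
  have hM0 : 0 < M := lt_of_lt_of_le (div_pos (by norm_num) (by linarith)) hM
  set V := {x : Fin n → ℤ | Pool.Agent.Results.MP_7ecdd4_nt.FewExceptions.Admissible x ∧
    (∀ i, |x i| ≤ (L : ℤ)) ∧ ¬ Pool.Agent.Results.MP_7ecdd4_nt.FewExceptions.Holds M x} with hV
  have hVfin : V.Finite := by
    apply Set.Finite.subset (Set.Finite.pi' (fun _ : Fin n => Set.finite_Icc (-(L : ℤ)) L))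
    rintro x ⟨-, h1, -⟩
    intro i
    exact abs_le.1 (h1 i)
  have hsub : {x : Fin n → ℤ | (Adm x ∧ M * lrad x < Real.log (siz x)) ∧ (siz x : ℝ) ≤ X} ⊆ V := by
    rintro x ⟨⟨h1, h2⟩, h3⟩
    have h4 : siz x ≤ L := Nat.le_floor h3
    refine ⟨h1, fun i => ?_, fun h5 => ?_⟩
    · have := le_siz x i
      rw [Int.abs_eq_natAbs]
      exact_mod_cast this.trans h4
    · have hne : (Finset.univ : Finset (Fin n)).Nonempty := ⟨⟨0, by omega⟩, Finset.mem_univ _⟩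
      obtain ⟨i, -, hi⟩ := Finset.exists_mem_eq_sup Finset.univ hne (fun i => (x i).natAbs)
      have h6 := h5 i
      have h7 : |((x i : ℤ) : ℝ)| = (siz x : ℝ) := by
        have h8 : siz x = (x i).natAbs := hi
        rw [h8, Nat.cast_natAbs]
        push_cast
        rfl
      rw [h7] at h6
      have h8 : (∏ i, x i).natAbs.primeFactors.prod id = rad x := rfl
      rw [h8] at h6
      have hr : (0 : ℝ) < rad x := by exact_mod_cast rad_pos x
      have hs : (0 : ℝ) < siz x := by exact_mod_cast siz_pos (by omega) h1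
      have h9 := Real.log_le_log hs h6
      rw [Real.log_rpow hr, log_rad h1] at h9
      linarith
  refine ⟨hVfin.subset hsub, ?_⟩
  have h10 : (0 : ℝ) ≤ (3 * (n : ℝ) - 5) / ((3 * (n : ℝ) - 2) * M) + δ := by
    have : 0 ≤ (3 * (n : ℝ) - 5) / ((3 * (n : ℝ) - 2) * M) :=
      div_nonneg (by linarith) (mul_nonneg (by linarith) hM0.le)
    linarith
  calc (({x : Fin n → ℤ | (Adm x ∧ M * lrad x < Real.log (siz x)) ∧
        (siz x : ℝ) ≤ X}.ncard : ℕ) : ℝ) ≤ V.ncard := by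
        exact_mod_cast Set.ncard_le_ncard hsub hVfin
    _ ≤ C * (L : ℝ) ^ ((3 * (n : ℝ) - 5) / ((3 * (n : ℝ) - 2) * M) + δ) := hC L hL1
    _ ≤ |C| * X ^ ((3 * (n : ℝ) - 5) / ((3 * (n : ℝ) - 2) * M) + δ) := by
        refine mul_le_mul (le_abs_self C) ?_ (by positivity) (abs_nonneg C)
        exact Real.rpow_le_rpow (Nat.cast_nonneg _) hLX h10

open scoped Classical in
/-- **the law for large radicals** -/
theorem lawC (hN : 2 ≤ N) [MeasurableSpace (ZHatN N)] [BorelSpace (ZHatN N)]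
    (μ : Measure (ZHatN N)) [IsFiniteMeasure μ] [μ.IsAddLeftInvariant] :
    ∀ᵐ u : (Fin N → ℝ) × ZHatN N ∂(volume.prod μ), ∀ V : Finset Nat.Primes,
      (∀ ε : ℝ, 0 < ε → ∃ C : ℝ, ∀ x : Fin (N + 2) → ℤ, Adm x →
        ((N : ℝ) + 1) * Real.log (siz x) ≤ lrad x →
        N * mZ V u (rt x) ≤ lrad x - Real.log (siz x) + ε * Real.log (siz x) + C) ∧
      ∀ ε : ℝ, 0 < ε → ∃ C : ℝ, ∀ x : Fin (N + 2) → ℤ, Adm x →
        lrad x ≤ ((N : ℝ) + 1) * Real.log (siz x) →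
        N * mZ V u (rt x) ≤ ((N : ℝ) + ε) * Real.log (siz x) + C := by
  have hN' : (2 : ℝ) ≤ N := by exact_mod_cast hN
  have key : ∀ i : ℕ × ℕ, ∀ᵐ u : (Fin N → ℝ) × ZHatN N ∂(volume.prod μ), 0 < i.2 → i.1 ≤ i.2 →
      ∀ V : Finset Nat.Primes, ∀ ε : ℝ, 0 < ε → ∃ C : ℝ,
      ∀ x ∈ {x : Fin (N + 2) → ℤ | Adm x ∧ ((i.1 : ℝ) / i.2) * Real.log (siz x) ≤
        ((N + 2 : ℕ) : ℝ) * Real.log (siz x) - lrad x},
      (N : ℝ) * mZ V u (rt x) ≤ ((N : ℝ) + 1 - (i.1 : ℝ) / i.2 + ε) * Real.log (siz x) + C := by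
    rintro ⟨j, J⟩
    by_cases hJ : 0 < J ∧ j ≤ J
    · obtain ⟨hJ0, hj⟩ := hJ
      have hJ0' : (0 : ℝ) < J := by exact_mod_cast hJ0
      have h1 : (j : ℝ) / J ≤ 1 := by
        rw [div_le_one hJ0']
        exact_mod_cast hj
      have h0 : 0 ≤ (j : ℝ) / J := by positivity
      have h := gen (by omega : 1 ≤ N) μ (T := Fin (N + 2) → ℤ) rt (fun x => (siz x : ℝ))
        {x : Fin (N + 2) → ℤ | Adm x ∧ ((j : ℝ) / J) * Real.log (siz x) ≤
          ((N + 2 : ℕ) : ℝ) * Real.log (siz x) - lrad x}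
        (fun x hx => by exact_mod_cast siz_pos (by omega) hx.1) (s := (N : ℝ) + 1 - (j : ℝ) / J)
        (by linarith) (fun δ hδ => ?_)
      · filter_upwards [h] with u hu
        exact fun _ _ => hu
      · obtain ⟨C, hC⟩ := cnt (n := N + 2) (by omega) h0 h1 hδ
        refine ⟨C, fun X hX => ?_⟩
        have hset : {x : Fin (N + 2) → ℤ | x ∈ {x : Fin (N + 2) → ℤ | Adm x ∧
            ((j : ℝ) / J) * Real.log (siz x) ≤ ((N + 2 : ℕ) : ℝ) * Real.log (siz x) - lrad x} ∧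
            (siz x : ℝ) ≤ X} = {x : Fin (N + 2) → ℤ | Adm x ∧
            ((j : ℝ) / J) * Real.log (siz x) ≤ ((N + 2 : ℕ) : ℝ) * Real.log (siz x) - lrad x ∧
            (siz x : ℝ) ≤ X} := by
          ext x
          exact and_assoc
        rw [hset]
        refine ⟨(hC X hX).1, (hC X hX).2.trans (le_of_eq ?_)⟩
        congr 2
        push_cast
        ring
    · exact Filter.Eventually.of_forall fun u g1 g2 => absurd ⟨g1, g2⟩ hJ
  filter_upwards [ae_all_iff.2 key] with u hu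
  intro V
  set G : Set (Fin (N + 2) → ℤ) := {x | Adm x} with hG
  have hh : ∀ x ∈ G, 0 ≤ Real.log (siz x : ℝ) := fun x _ => Real.log_natCast_nonneg _
  refine ⟨fun ε hε => ?_, fun ε hε => ?_⟩
  · have h := Q273.MV.tradeoff2 (fun x : Fin (N + 2) → ℤ => Real.log (siz x : ℝ))
      (fun x => ((N + 2 : ℕ) : ℝ) * Real.log (siz x) - lrad x)
      (fun x => (N : ℝ) * mZ V u (rt x)) G (n0 := (N : ℝ) + 1) (κ0 := 1) zero_le_one
      (fun x hx => by
        have := lrad_le hx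
        linarith) hh
      (fun j J hJ hj ε hε => by
        obtain ⟨C, hC⟩ := hu (j, J) hJ hj V ε hε
        refine ⟨C, fun x hx hle => ?_⟩
        rw [one_mul] at hle ⊢
        exact hC x ⟨hx, hle⟩) 0 ε hε
    obtain ⟨C, hC⟩ := h
    refine ⟨C, fun x hx hle => ?_⟩
    have h1 := hC x hx (by push_cast; linarith)
    push_cast at h1
    linarith
  · obtain ⟨C, hC⟩ := hu (1, 1) one_pos le_rfl V ε hε
    refine ⟨C, fun x hx hle => ?_⟩
    have h1 := hC x ⟨hx, by push_cast; rw [div_one]; linarith⟩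
    push_cast at h1
    rw [div_one] at h1
    linarith

open scoped Classical in
/-- **the law for small radicals** -/
theorem lawA (hN : 2 ≤ N) [MeasurableSpace (ZHatN N)] [BorelSpace (ZHatN N)]
    (μ : Measure (ZHatN N)) [IsFiniteMeasure μ] [μ.IsAddLeftInvariant] :
    ∀ᵐ u : (Fin N → ℝ) × ZHatN N ∂(volume.prod μ), ∀ V : Finset Nat.Primes,
      ∀ ε : ℝ, 0 < ε → ∃ C : ℝ, ∀ x : Fin (N + 2) → ℤ, Adm x →
        lrad x < (3 * (N : ℝ) + 4) / 10 * Real.log (siz x) →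
        N * mZ V u (rt x) ≤ (3 * (N : ℝ) + 1) / (3 * N + 4) * lrad x +
          ε * Real.log (siz x) + C := by
  have hN' : (2 : ℝ) ≤ N := by exact_mod_cast hN
  obtain ⟨c, hc⟩ : ∃ c : ℝ, c = (3 * (N : ℝ) + 1) / (3 * N + 4) := ⟨_, rfl⟩
  obtain ⟨l0, hl0⟩ : ∃ l0 : ℝ, l0 = (3 * (N : ℝ) + 4) / 10 := ⟨_, rfl⟩
  rw [← hc, ← hl0]
  have hc0 : 0 < c := by rw [hc]; positivity
  have hl00 : 0 < l0 := by rw [hl0]; positivity
  set G : Set (Fin (N + 2) → ℤ) := {x | Adm x ∧ lrad x < l0 * Real.log (siz x)} with hG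
  -- counts
  have hcount : ∀ l : ℝ, 0 ≤ l → l < l0 → ∀ δ : ℝ, 0 < δ → ∃ C : ℝ, ∀ X : ℝ, 1 ≤ X →
      {x | x ∈ {x | x ∈ G ∧ lrad x ≤ l * Real.log (siz x)} ∧ (siz x : ℝ) ≤ X}.Finite ∧
      ({x | x ∈ {x | x ∈ G ∧ lrad x ≤ l * Real.log (siz x)} ∧ (siz x : ℝ) ≤ X}.ncard : ℝ) ≤
        C * X ^ (c * l + δ) := by
    intro l hl hl1 δ hδ
    obtain ⟨δ1, hδ1, hδ2, hδ3⟩ : ∃ δ1 : ℝ, 0 < δ1 ∧ c * δ1 ≤ δ / 2 ∧ l + δ1 ≤ l0 := by
      refine ⟨min (δ / (2 * c)) (l0 - l), lt_min (by positivity) (by linarith), ?_, ?_⟩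
      · have := mul_le_mul_of_nonneg_left (min_le_left (δ / (2 * c)) (l0 - l)) hc0.le
        refine this.trans (le_of_eq ?_)
        field_simp
      · have := min_le_right (δ / (2 * c)) (l0 - l)
        linarith
    have hs : 0 < l + δ1 := by linarith
    have hM : 10 / (3 * ((N + 2 : ℕ) : ℝ) - 2) ≤ 1 / (l + δ1) := by
      rw [div_le_div_iff₀ (by push_cast; linarith) hs]
      push_cast
      rw [hl0] at hδ3
      linarith
    obtain ⟨C, hC⟩ := cntA (n := N + 2) (by omega) hM (δ := δ / 2) (by positivity)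
    refine ⟨|C|, fun X hX => ?_⟩
    have hsub : {x | x ∈ {x | x ∈ G ∧ lrad x ≤ l * Real.log (siz x)} ∧ (siz x : ℝ) ≤ X} ⊆
        {x : Fin (N + 2) → ℤ | (Adm x ∧ 1 / (l + δ1) * lrad x < Real.log (siz x)) ∧
          (siz x : ℝ) ≤ X} := by
      rintro x ⟨⟨⟨h1, h2⟩, h3⟩, h4⟩
      refine ⟨⟨h1, ?_⟩, h4⟩
      have h5 : 0 < Real.log (siz x : ℝ) := by
        by_contra hneg
        push Not at hneg
        have h6 : Real.log (siz x : ℝ) = 0 := le_antisymm hneg (Real.log_natCast_nonneg _)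
        rw [h6, mul_zero] at h2
        exact absurd h2 (not_lt.2 (lrad_nonneg x))
      rw [one_div, inv_mul_lt_iff₀ hs]
      nlinarith
    obtain ⟨h1, h2⟩ := hC X hX
    refine ⟨h1.subset hsub, ?_⟩
    have h3 : (({x | x ∈ {x | x ∈ G ∧ lrad x ≤ l * Real.log (siz x)} ∧
        (siz x : ℝ) ≤ X}.ncard : ℕ) : ℝ) ≤ _ := (by exact_mod_cast Set.ncard_le_ncard hsub h1 :
        _ ≤ (({x : Fin (N + 2) → ℤ | (Adm x ∧ 1 / (l + δ1) * lrad x < Real.log (siz x)) ∧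
          (siz x : ℝ) ≤ X}.ncard : ℕ) : ℝ))
    refine h3.trans (h2.trans ?_)
    refine mul_le_mul (le_abs_self C) ?_ (Real.rpow_nonneg (by linarith) _) (abs_nonneg C)
    refine Real.rpow_le_rpow_of_exponent_le hX ?_
    have h4 : (3 * ((N + 2 : ℕ) : ℝ) - 5) / ((3 * ((N + 2 : ℕ) : ℝ) - 2) * (1 / (l + δ1))) =
        c * (l + δ1) := by
      rw [hc]
      push_cast
      have e1 : (3 : ℝ) * ((N : ℝ) + 2) - 2 = 3 * N + 4 := by ring
      have e2 : (3 : ℝ) * ((N : ℝ) + 2) - 5 = 3 * N + 1 := by ring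
      rw [e1, e2]
      field_simp
    rw [h4]
    linarith
  have hcount0 : ∀ δ : ℝ, 0 < δ → ∃ C : ℝ, ∀ X : ℝ, 1 ≤ X →
      {x | x ∈ G ∧ (siz x : ℝ) ≤ X}.Finite ∧
      ({x | x ∈ G ∧ (siz x : ℝ) ≤ X}.ncard : ℝ) ≤ C * X ^ (c * l0 + δ) := by
    intro δ hδ
    have hM : 10 / (3 * ((N + 2 : ℕ) : ℝ) - 2) ≤ 1 / l0 := by
      rw [hl0]
      push_cast
      have e1 : (3 : ℝ) * ((N : ℝ) + 2) - 2 = 3 * N + 4 := by ring
      rw [e1]
      refine le_of_eq ?_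
      field_simp
    obtain ⟨C, hC⟩ := cntA (n := N + 2) (by omega) hM hδ
    refine ⟨C, fun X hX => ?_⟩
    have hset : {x | x ∈ G ∧ (siz x : ℝ) ≤ X} =
        {x : Fin (N + 2) → ℤ | (Adm x ∧ 1 / l0 * lrad x < Real.log (siz x)) ∧
          (siz x : ℝ) ≤ X} := by
      ext x
      have e : lrad x < l0 * Real.log (siz x) ↔ 1 / l0 * lrad x < Real.log (siz x) := by
        rw [one_div, inv_mul_lt_iff₀ hl00]
      constructor
      · rintro ⟨⟨h1, h2⟩, h3⟩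
        exact ⟨⟨h1, e.1 h2⟩, h3⟩
      · rintro ⟨⟨h1, h2⟩, h3⟩
        exact ⟨⟨h1, e.2 h2⟩, h3⟩
    rw [hset]
    refine ⟨(hC X hX).1, (hC X hX).2.trans (le_of_eq ?_)⟩
    congr 2
    rw [hc, hl0]
    push_cast
    have e1 : (3 : ℝ) * ((N : ℝ) + 2) - 2 = 3 * N + 4 := by ring
    have e2 : (3 : ℝ) * ((N : ℝ) + 2) - 5 = 3 * N + 1 := by ring
    rw [e1, e2]
    field_simp
  have key : ∀ i : ℕ × ℕ, ∀ᵐ u : (Fin N → ℝ) × ZHatN N ∂(volume.prod μ), 0 < i.2 → i.1 ≤ i.2 →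
      ∀ V : Finset Nat.Primes, ∀ ε : ℝ, 0 < ε → ∃ C : ℝ,
      ∀ x ∈ {x | x ∈ G ∧ lrad x ≤ l0 * (1 - (i.1 : ℝ) / i.2) * Real.log (siz x)},
      (N : ℝ) * mZ V u (rt x) ≤
        (c * (l0 * (1 - (i.1 : ℝ) / i.2)) + ε) * Real.log (siz x) + C := by
    rintro ⟨j, J⟩
    by_cases hJ : 0 < J ∧ j ≤ J
    · obtain ⟨hJ0, hj⟩ := hJ
      have hJ0' : (0 : ℝ) < J := by exact_mod_cast hJ0
      have h1 : (j : ℝ) / J ≤ 1 := by
        rw [div_le_one hJ0']
        exact_mod_cast hj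
      have h0 : 0 ≤ (j : ℝ) / J := by positivity
      have hs0 : 0 ≤ c * (l0 * (1 - (j : ℝ) / J)) :=
        mul_nonneg hc0.le (mul_nonneg hl00.le (by linarith))
      have h := gen (by omega : 1 ≤ N) μ (T := Fin (N + 2) → ℤ) rt (fun x => (siz x : ℝ))
        {x | x ∈ G ∧ lrad x ≤ l0 * (1 - (j : ℝ) / J) * Real.log (siz x)}
        (fun x hx => by exact_mod_cast siz_pos (by omega) hx.1.1)
        (s := c * (l0 * (1 - (j : ℝ) / J))) hs0 (fun δ hδ => ?_)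
      · filter_upwards [h] with u hu
        exact fun _ _ => hu
      · rcases Nat.eq_zero_or_pos j with hj0 | hj0
        · subst hj0
          obtain ⟨C, hC⟩ := hcount0 δ hδ
          refine ⟨C, fun X hX => ?_⟩
          have hset : {x | x ∈ {x | x ∈ G ∧ lrad x ≤ l0 * (1 - ((0 : ℕ) : ℝ) / J) *
              Real.log (siz x)} ∧ (siz x : ℝ) ≤ X} = {x | x ∈ G ∧ (siz x : ℝ) ≤ X} := by
            ext x
            constructor
            · rintro ⟨⟨h1, _⟩, h3⟩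
              exact ⟨h1, h3⟩
            · rintro ⟨h1, h3⟩
              refine ⟨⟨h1, ?_⟩, h3⟩
              rw [Nat.cast_zero, zero_div, sub_zero, mul_one]
              exact h1.2.le
          rw [hset]
          refine ⟨(hC X hX).1, (hC X hX).2.trans (le_of_eq ?_)⟩
          rw [Nat.cast_zero, zero_div, sub_zero, mul_one]
        · have hj0' : (0 : ℝ) < j := by exact_mod_cast hj0
          have h2 : l0 * (1 - (j : ℝ) / J) < l0 := by
            have : 0 < (j : ℝ) / J := by positivity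
            nlinarith
          exact hcount _ (mul_nonneg hl00.le (by linarith)) h2 δ hδ
    · exact Filter.Eventually.of_forall fun u g1 g2 => absurd ⟨g1, g2⟩ hJ
  filter_upwards [ae_all_iff.2 key] with u hu
  intro V ε hε
  have h := Q273.MV.tradeoff2 (fun x : Fin (N + 2) → ℤ => Real.log (siz x : ℝ))
      (fun x => c * (l0 * Real.log (siz x) - lrad x))
      (fun x => (N : ℝ) * mZ V u (rt x)) G (n0 := c * l0) (κ0 := c * l0) (by positivity)
      (fun x hx => mul_nonneg hc0.le (by linarith [hx.2]))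
      (fun x _ => Real.log_natCast_nonneg _)
      (fun j J hJ hj ε hε => by
        obtain ⟨C, hC⟩ := hu (j, J) hJ hj V ε hε
        refine ⟨C, fun x hx hle => ?_⟩
        have h1 : lrad x ≤ l0 * (1 - (j : ℝ) / J) * Real.log (siz x) := by
          have h2 : c * (l0 * ((j : ℝ) / J) * Real.log (siz x)) ≤
              c * (l0 * Real.log (siz x) - lrad x) := by
            refine le_trans (le_of_eq ?_) hle
            ring
          have h3 := le_of_mul_le_mul_left h2 hc0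
          linarith
        have h4 := hC x ⟨hx, h1⟩
        refine h4.trans (le_of_eq ?_)
        simp only
        ring) 0 ε hε
  obtain ⟨C, hC⟩ := h
  refine ⟨C, fun x hx hle => ?_⟩
  have h1 := hC x ⟨hx, hle⟩ (by
    have h2 := mul_nonneg hc0.le (lrad_nonneg x)
    linarith)
  linarith

end Q273.SN
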