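import Pool.Agent.H813R3.Voj.Rad
import Pool.Agent.TH867.NA.Main

/-!
# Pairwise coprime tuples: decomposition of the entries, the good pair
-/

set_option autoImplicit false

namespace Q273.SN

open Finset
open Pool.Agent.H813R3.Voj (rd rd_pos)
open Pool.Agent.TH867.SQ (lr lr_nonneg)

/-- the quotient of `m` by its radical -/
def qq (m : ℕ) : ℕ := m / rd m

/-- the product of the prime powers `p ^ k`, `k ≥ 2`, in `m` -/
def yy (m : ℕ) : ℕ := qq m * rd (qq m)

/-- the product of the primes dividing `m` exactly once -/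
def zz (m : ℕ) : ℕ := rd m / rd (qq m)

theorem qq_mul {m : ℕ} (_hm : m ≠ 0) : m = qq m * rd m :=
  (Nat.div_mul_cancel m.prod_primeFactors_dvd).symm

theorem qq_ne {m : ℕ} (hm : m ≠ 0) : qq m ≠ 0 := by
  intro h
  have := qq_mul hm
  rw [h, zero_mul] at this
  exact hm this

theorem rd_qq_dvd {m : ℕ} (hm : m ≠ 0) : rd (qq m) ∣ rd m := by
  unfold rd
  refine Finset.prod_dvd_prod_of_subset _ _ _ (Nat.primeFactors_mono ?_ hm)
  exact ⟨rd m, qq_mul hm⟩

theorem rd_eq {m : ℕ} (hm : m ≠ 0) : rd m = rd (qq m) * zz m :=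
  (Nat.mul_div_cancel' (rd_qq_dvd hm)).symm

theorem eq_yz {m : ℕ} (hm : m ≠ 0) : m = yy m * zz m := by
  conv_lhs => rw [qq_mul hm, rd_eq hm]
  unfold yy
  ring

theorem zz_pos {m : ℕ} (hm : m ≠ 0) : 0 < zz m := by
  rcases Nat.eq_zero_or_pos (zz m) with h | h
  · have := rd_eq hm
    rw [h, mul_zero] at this
    have h2 := rd_pos m
    omega
  · exact h

theorem yy_pos {m : ℕ} (hm : m ≠ 0) : 0 < yy m := by
  rcases Nat.eq_zero_or_pos (yy m) with h | h
  · have := eq_yz hm
    rw [h, zero_mul] at this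
    exact absurd this hm
  · exact h

theorem lr_eq (m : ℕ) : lr m = Real.log (rd m) := by
  unfold lr rd
  push_cast
  rw [Real.log_prod]
  intro p hp
  exact_mod_cast (Nat.prime_of_mem_primeFactors hp).pos.ne'

theorem two_lr_le {m : ℕ} (hm : m ≠ 0) : 2 * lr m ≤ Real.log m + Real.log (zz m) := by
  have hq : (0 : ℝ) < qq m := by exact_mod_cast Nat.pos_of_ne_zero (qq_ne hm)
  have hr : (0 : ℝ) < rd m := by exact_mod_cast rd_pos m
  have hrq : (0 : ℝ) < rd (qq m) := by exact_mod_cast rd_pos _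
  have hz : (0 : ℝ) < zz m := by exact_mod_cast zz_pos hm
  have h1 : Real.log m = Real.log (qq m) + Real.log (rd m) := by
    conv_lhs => rw [qq_mul hm]
    push_cast
    rw [Real.log_mul hq.ne' hr.ne']
  have h2 : Real.log (rd m) = Real.log (rd (qq m)) + Real.log (zz m) := by
    conv_lhs => rw [rd_eq hm]
    push_cast
    rw [Real.log_mul hrq.ne' hz.ne']
  have h4 : rd (qq m) ≤ qq m := Nat.le_of_dvd (Nat.pos_of_ne_zero (qq_ne hm))
    (Nat.prod_primeFactors_dvd (qq m))
  have h3 : Real.log (rd (qq m)) ≤ Real.log (qq m) :=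
    Real.log_le_log hrq (by exact_mod_cast h4)
  rw [lr_eq]
  linarith

theorem log_nn (m : ℕ) : 0 ≤ Real.log m := Real.log_natCast_nonneg m

/-- an admissible tuple -/
def Adm {n : ℕ} (x : Fin n → ℤ) : Prop :=
  (∀ i, x i ≠ 0) ∧ (∀ i j, i ≠ j → Int.gcd (x i) (x j) = 1) ∧ ∑ i, x i = 0

/-- the size -/
def siz {n : ℕ} (x : Fin n → ℤ) : ℕ := Finset.univ.sup fun i => (x i).natAbs

theorem le_siz {n : ℕ} (x : Fin n → ℤ) (i : Fin n) : (x i).natAbs ≤ siz x :=
  Finset.le_sup (f := fun i => (x i).natAbs) (Finset.mem_univ i)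

/-- the logarithm of the radical -/
noncomputable def lrad {n : ℕ} (x : Fin n → ℤ) : ℝ := ∑ i, lr (x i).natAbs

/-- **the good pair** -/
theorem good_pair {n : ℕ} (hn : 4 ≤ n) {x : Fin n → ℤ} (hx : Adm x) :
    ∃ i j : Fin n, i ≠ j ∧ Real.log (siz x) ≤ Real.log (n * (x j).natAbs) ∧
      min (lrad x - ((n : ℝ) - 2) * Real.log (siz x)) (Real.log (siz x)) ≤
        Real.log (zz (x i).natAbs) + Real.log (zz (x j).natAbs) := by
  classical
  have hn' : (4 : ℝ) ≤ n := by exact_mod_cast hn
  have ha : ∀ i, (x i).natAbs ≠ 0 := fun i => Int.natAbs_ne_zero.2 (hx.1 i)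
  have : Nonempty (Fin n) := ⟨⟨0, by omega⟩⟩
  -- the largest entry
  obtain ⟨j1, -, hj1⟩ := Finset.exists_mem_eq_sup Finset.univ Finset.univ_nonempty
    (fun i => (x i).natAbs)
  have hj1' : siz x = (x j1).natAbs := hj1
  -- the second largest entry
  have hne : (Finset.univ.erase j1).Nonempty := by
    rw [← Finset.card_pos, Finset.card_erase_of_mem (Finset.mem_univ _), Finset.card_univ,
      Fintype.card_fin]
    omega
  obtain ⟨j2, hj2m, hj2⟩ := Finset.exists_mem_eq_sup (Finset.univ.erase j1) hne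
    (fun i => (x i).natAbs)
  have hj12 : j2 ≠ j1 := (Finset.mem_erase.1 hj2m).1
  have hbig2 : siz x ≤ n * (x j2).natAbs := by
    have h1 : x j1 = -∑ k ∈ Finset.univ.erase j1, x k := by
      have := Finset.add_sum_erase Finset.univ x (Finset.mem_univ j1)
      rw [hx.2.2] at this
      linarith
    have h2 : (x j1).natAbs ≤ ∑ k ∈ Finset.univ.erase j1, (x k).natAbs := by
      rw [h1, Int.natAbs_neg]
      exact Int.natAbs_sum_le _ _
    have h3 : ∑ k ∈ Finset.univ.erase j1, (x k).natAbs ≤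
        ∑ _k ∈ Finset.univ.erase j1, (x j2).natAbs := by
      refine Finset.sum_le_sum fun k hk => ?_
      have h4 := Finset.le_sup (f := fun i => (x i).natAbs) hk
      rw [hj2] at h4
      exact h4
    rw [Finset.sum_const, Finset.card_erase_of_mem (Finset.mem_univ _), Finset.card_univ,
      Fintype.card_fin, smul_eq_mul] at h3
    rw [hj1']
    refine h2.trans (h3.trans (Nat.mul_le_mul_right _ (by omega)))
  have hbig1 : siz x ≤ n * (x j1).natAbs := by
    rw [hj1']
    exact Nat.le_mul_of_pos_left _ (by omega)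
  -- two other entries
  obtain ⟨i3, hi3⟩ : ∃ i3, i3 ∈ (Finset.univ.erase j1).erase j2 := by
    have : ((Finset.univ.erase j1).erase j2).Nonempty := by
      rw [← Finset.card_pos, Finset.card_erase_of_mem hj2m, Finset.card_erase_of_mem
        (Finset.mem_univ _), Finset.card_univ, Fintype.card_fin]
      omega
    exact this
  obtain ⟨i4, hi4⟩ : ∃ i4, i4 ∈ ((Finset.univ.erase j1).erase j2).erase i3 := by
    have : (((Finset.univ.erase j1).erase j2).erase i3).Nonempty := by
      rw [← Finset.card_pos, Finset.card_erase_of_mem hi3, Finset.card_erase_of_mem hj2m,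
        Finset.card_erase_of_mem (Finset.mem_univ _), Finset.card_univ, Fintype.card_fin]
      omega
    exact this
  have hi32 : i3 ≠ j2 := (Finset.mem_erase.1 hi3).1
  have hi31 : i3 ≠ j1 := (Finset.mem_erase.1 (Finset.mem_erase.1 hi3).2).1
  have hi43 : i4 ≠ i3 := (Finset.mem_erase.1 hi4).1
  have hi42 : i4 ≠ j2 := (Finset.mem_erase.1 (Finset.mem_erase.1 hi4).2).1
  have hi41 : i4 ≠ j1 := (Finset.mem_erase.1 (Finset.mem_erase.1 (Finset.mem_erase.1 hi4).2).2).1
  -- logarithms
  set L : ℝ := Real.log (siz x) with hL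
  have hle : ∀ i, Real.log ((x i).natAbs : ℕ) ≤ L := fun i => by
    refine Real.log_le_log ?_ ?_
    · exact_mod_cast Nat.pos_of_ne_zero (ha i)
    · exact_mod_cast le_siz x i
  have hlr : ∀ i, lr (x i).natAbs ≤ L := fun i =>
    (Pool.Agent.TH867.SQ.lr_le_log (ha i)).trans (hle i)
  have h2l : ∀ i, 2 * lr (x i).natAbs ≤ L + Real.log (zz (x i).natAbs) := fun i =>
    (two_lr_le (ha i)).trans (by linarith [hle i])
  have hlog : ∀ j, siz x ≤ n * (x j).natAbs → L ≤ Real.log (n * (x j).natAbs) := fun j hj => by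
    refine Real.log_le_log ?_ ?_
    · rw [hj1']
      exact_mod_cast Nat.pos_of_ne_zero (ha j1)
    · exact_mod_cast hj
  by_contra hcon
  push Not at hcon
  have c1 := hcon i3 j1 hi31 (hlog j1 hbig1)
  have c2 := hcon i4 j2 hi42 (hlog j2 hbig2)
  have hsum : lrad x ≤ lr (x j1).natAbs + lr (x j2).natAbs + lr (x i3).natAbs +
      lr (x i4).natAbs + ((n : ℝ) - 4) * L := by
    unfold lrad
    rw [← Finset.add_sum_erase Finset.univ _ (Finset.mem_univ j1),
      ← Finset.add_sum_erase _ _ hj2m, ← Finset.add_sum_erase _ _ hi3,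
      ← Finset.add_sum_erase _ _ hi4]
    have h5 : ∑ k ∈ (((Finset.univ.erase j1).erase j2).erase i3).erase i4, lr (x k).natAbs ≤
        ((n : ℝ) - 4) * L := by
      refine (Finset.sum_le_card_nsmul _ _ L fun k _ => hlr k).trans (le_of_eq ?_)
      rw [Finset.card_erase_of_mem hi4, Finset.card_erase_of_mem hi3,
        Finset.card_erase_of_mem hj2m, Finset.card_erase_of_mem (Finset.mem_univ _),
        Finset.card_univ, Fintype.card_fin, nsmul_eq_mul]
      have e : n - 1 - 1 - 1 - 1 = n - 4 := by omega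
      rw [e, Nat.cast_sub hn]
      norm_num
    linarith
  have d1 := h2l j1
  have d2 := h2l j2
  have d3 := h2l i3
  have d4 := h2l i4
  have e1 := min_le_left (lrad x - ((n : ℝ) - 2) * L) L
  linarith

end Q273.SN
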